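import Pool.Agent.W539.Cone.Prod

/-!
# Movable cones of products and of finite etale quotients

Monoids of classes of movable and of effective divisors, the effective movable cone, and the
reduction of the movable cone conjecture for finite etale quotients of products to the factors.
The convex geometry is `Pool.Agent.W539.Cone`.
-/

set_option autoImplicit false

namespace Pool.Agent.W955.Mov

open Pool.Agent.W539.Cone

/-- The effective movable cone: the closure of the convex cone spanned by the classes `M` of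
movable divisors, intersected with the convex cone spanned by the classes `F` of effective
divisors. -/
def movEff {V : Type*} [NormedAddCommGroup V] [NormedSpace ℝ V] (M F : AddSubmonoid V) : Set V :=
  closure (cone (M : Set V)) ∩ cone (F : Set V)

/-- The divisor classes of a variety: `V` is the space of numerical classes, `L` the lattice of
classes of divisors, `M` the classes of movable divisors, `F` the classes of effective divisors,
`Γ` the group induced by the birational automorphisms. The effective movable cone has nonempty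
interior and the closure of the effective cone contains no line. -/
structure DivisorData (V : Type) [NormedAddCommGroup V] [NormedSpace ℝ V] where
  L : AddSubgroup V
  M : AddSubmonoid V
  F : AddSubmonoid V
  Γ : Subgroup (V ≃ₗ[ℝ] V)
  lattice : IsLattice L
  mov_eff : M ≤ F
  eff_int : ∀ x ∈ F, x ∈ L
  presL : Preserves Γ (L : Set V)
  presM : Preserves Γ (M : Set V)
  presF : Preserves Γ (F : Set V)
  big : (interior (movEff M F)).Nonempty
  pointed : ∀ x, x ∈ closure (cone (F : Set V)) → -x ∈ closure (cone (F : Set V)) → x = 0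

/-- The movable cone conjecture: `Γ` acts on the effective movable cone with a rational polyhedral
fundamental domain. -/
def DivisorData.Conj {V : Type} [NormedAddCommGroup V] [NormedSpace ℝ V] (R : DivisorData V) :
    Prop :=
  HasFundDomain R.L (movEff R.M R.F) R.Γ

/-- `R` belongs to a product of varieties with data `S i` (no new divisor classes): a class is
integral, movable, effective iff all its components are, and products of birational automorphisms
are birational automorphisms. -/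
def IsProd {ι : Type} {V : ι → Type} [∀ i, NormedAddCommGroup (V i)]
    [∀ i, NormedSpace ℝ (V i)] [Fintype ι] (S : ∀ i, DivisorData (V i))
    (R : DivisorData (∀ i, V i)) : Prop :=
  (∀ x, x ∈ R.L ↔ ∀ i, x i ∈ (S i).L) ∧ (∀ x, x ∈ R.M ↔ ∀ i, x i ∈ (S i).M) ∧
    (∀ x, x ∈ R.F ↔ ∀ i, x i ∈ (S i).F) ∧
    ∀ γ : ∀ i, V i ≃ₗ[ℝ] V i, (∀ i, γ i ∈ (S i).Γ) → LinearEquiv.piCongrRight γ ∈ R.Γ

/-- For classes `A` on `X` and `B` on a quotient (living on the fixed space of `G`): pull-backs of
elements of `B` are in `A`, and an invariant class in `A` has a positive multiple in `B`. -/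
def Comes {V : Type} [NormedAddCommGroup V] [NormedSpace ℝ V] {G : Subgroup (V ≃ₗ[ℝ] V)}
    (A : Set V) (B : Set (fixed G)) : Prop :=
  (∀ x ∈ B, (x : V) ∈ A) ∧ ∀ x : fixed G, (x : V) ∈ A → ∃ n : ℕ, 0 < n ∧ n • x ∈ B

/-- `Γ'` contains the restrictions to the fixed space of `G` of all elements of a subgroup `C` of
finite index of the centraliser of `G` in `Γ`. -/
def Descends {V : Type} [NormedAddCommGroup V] [NormedSpace ℝ V] (Γ G : Subgroup (V ≃ₗ[ℝ] V))
    (Γ' : Subgroup (fixed G ≃ₗ[ℝ] fixed G)) : Prop :=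
  ∃ C : Subgroup (V ≃ₗ[ℝ] V), C ≤ Γ ⊓ Subgroup.centralizer (G : Set (V ≃ₗ[ℝ] V)) ∧
    C.relIndex (Γ ⊓ Subgroup.centralizer (G : Set (V ≃ₗ[ℝ] V))) ≠ 0 ∧
    ∀ γ ∈ C, ∃ γ' ∈ Γ', ∀ x : fixed G, (γ' x : V) = γ x

/-- `Q` belongs to a quotient by a finite group whose image in the group of `R` is `G`: it lives on
the fixed space of `G`; integral, movable and effective classes of `Q` come from those of `R`, and
the birational automorphisms of the quotient induce the restrictions of a subgroup of finite index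
of the centraliser of `G`. -/
def IsQuot {V : Type} [NormedAddCommGroup V] [NormedSpace ℝ V] (R : DivisorData V)
    (G : Subgroup (V ≃ₗ[ℝ] V)) (Q : DivisorData (fixed G)) : Prop :=
  Finite G ∧ G ≤ R.Γ ∧ Comes (R.L : Set V) (Q.L : Set (fixed G)) ∧
    Comes (R.M : Set V) (Q.M : Set (fixed G)) ∧ Comes (R.F : Set V) (Q.F : Set (fixed G)) ∧
    Descends R.Γ G Q.Γ

section maps

variable {V W : Type*} [NormedAddCommGroup V] [NormedSpace ℝ V] [NormedAddCommGroup W]
  [NormedSpace ℝ W]

lemma map_cone (f : V →ₗ[ℝ] W) {s : Set V} {t : Set W} (h : ∀ x ∈ s, f x ∈ cone t) {x : V}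
    (hx : x ∈ cone s) : f x ∈ cone t := by
  refine Submodule.span_induction (p := fun x _ => f x ∈ cone t) (fun x hx => h x hx) ?_ ?_ ?_ hx
  · rw [map_zero]; exact cone_zero t
  · intro x y _ _ hx hy
    rw [map_add]; exact cone_add hx hy
  · intro a x _ hx
    have : f (a • x) = (a : ℝ) • f x := by
      rw [NNReal.smul_def, map_smul]
    rw [this]
    exact cone_smul a.2 hx

lemma map_closure_cone [FiniteDimensional ℝ V] (f : V →ₗ[ℝ] W) {s : Set V} {t : Set W}
    (h : ∀ x ∈ s, f x ∈ cone t) {x : V} (hx : x ∈ closure (cone s)) : f x ∈ closure (cone t) :=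
  map_mem_closure (LinearMap.continuous_of_finiteDimensional f) hx fun _ hy => map_cone f h hy

lemma closure_add {s : Set V} {x y : V} (hx : x ∈ closure (cone s)) (hy : y ∈ closure (cone s)) :
    x + y ∈ closure (cone s) :=
  map_mem_closure₂ continuous_add hx hy fun _ ha _ hb => cone_add ha hb

lemma closure_smul' {s : Set V} {x : V} {c : ℝ} (hc : 0 ≤ c) (hx : x ∈ closure (cone s)) :
    c • x ∈ closure (cone s) :=
  map_mem_closure (continuous_const_smul c) hx fun _ ha => cone_smul hc ha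

end maps

lemma isCone {V : Type} [NormedAddCommGroup V] [NormedSpace ℝ V] (R : DivisorData V) :
    IsCone (movEff R.M R.F) := by
  refine ⟨⟨subset_closure (cone_zero _), cone_zero _⟩,
    fun x hx y hy => ⟨closure_add hx.1 hy.1, cone_add hx.2 hy.2⟩,
    fun c hc x hx => ⟨closure_smul' hc hx.1, cone_smul hc hx.2⟩, R.big, fun x hx hx' => ?_⟩
  have h : closure (movEff R.M R.F) ⊆ closure (cone (R.F : Set V)) :=
    closure_mono Set.inter_subset_right
  exact R.pointed x (h hx) (h hx')

lemma presE {V : Type} [NormedAddCommGroup V] [NormedSpace ℝ V] [FiniteDimensional ℝ V]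
    (R : DivisorData V) : Preserves R.Γ (movEff R.M R.F) := by
  intro γ hγ x hx
  exact ⟨map_closure_cone (γ : V →ₗ[ℝ] V) (fun y hy => subset_cone _ (R.presM γ hγ y hy)) hx.1,
    map_cone (γ : V →ₗ[ℝ] V) (fun y hy => subset_cone _ (R.presF γ hγ y hy)) hx.2⟩

section prod

variable {ι : Type} [Fintype ι] {V : ι → Type} [∀ i, NormedAddCommGroup (V i)]
  [∀ i, NormedSpace ℝ (V i)]

lemma cone_pi {s : ∀ i, Set (V i)} {t : Set (∀ i, V i)} (h : ∀ x, x ∈ t ↔ ∀ i, x i ∈ s i)
    (h0 : ∀ i, (0 : V i) ∈ s i) : cone t = Set.pi Set.univ fun i => cone (s i) := by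
  classical
  ext x
  constructor
  · intro hx i _
    exact map_cone (LinearMap.proj i : (∀ i, V i) →ₗ[ℝ] V i)
      (fun y hy => subset_cone _ ((h y).1 hy i)) hx
  · intro hx
    have h1 : x = ∑ i, LinearMap.single ℝ V i (x i) := by
      have := (Finset.univ_sum_single x).symm
      simpa using this
    rw [h1]
    refine cone_sum fun i _ => ?_
    refine map_cone (LinearMap.single ℝ V i) (fun y hy => subset_cone _ ((h _).2 fun j => ?_))
      (hx i (Set.mem_univ i))
    by_cases hj : j = i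
    · subst hj
      simpa using hy
    · simp only [LinearMap.coe_single]
      rw [Pi.single_eq_of_ne hj]
      exact h0 j

lemma movEff_pi (S : ∀ i, DivisorData (V i)) (R : DivisorData (∀ i, V i)) (hR : IsProd S R) :
    movEff R.M R.F = Set.pi Set.univ fun i => movEff (S i).M (S i).F := by
  obtain ⟨-, hM, hF, -⟩ := hR
  have h1 : cone (R.M : Set (∀ i, V i)) = Set.pi Set.univ fun i => cone ((S i).M : Set (V i)) :=
    cone_pi (fun x => hM x) fun i => (S i).M.zero_mem
  have h2 : cone (R.F : Set (∀ i, V i)) = Set.pi Set.univ fun i => cone ((S i).F : Set (V i)) :=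
    cone_pi (fun x => hF x) fun i => (S i).F.zero_mem
  unfold movEff
  rw [h1, h2, closure_pi_set]
  exact (Set.pi_inter_distrib).symm

end prod

section quot

variable {V : Type} [NormedAddCommGroup V] [NormedSpace ℝ V] {G : Subgroup (V ≃ₗ[ℝ] V)}

lemma avg_mem [Fintype G] {A : AddSubmonoid V} {B : AddSubmonoid (fixed G)}
    (hG : Preserves G (A : Set V))
    (h2 : ∀ x : fixed G, (x : V) ∈ A → ∃ n : ℕ, 0 < n ∧ n • x ∈ B) {a : V} (ha : a ∈ A) :
    avg G a ∈ cone (B : Set (fixed G)) := by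
  have h : (avg G a : V) ∈ A := by
    rw [avg_coe]
    exact A.sum_mem fun g _ => hG g g.2 a ha
  obtain ⟨n, hn, hnB⟩ := h2 _ h
  have hn' : (0 : ℝ) < n := by exact_mod_cast hn
  have : avg G a = (n : ℝ)⁻¹ • (n • avg G a) := by
    rw [← Nat.cast_smul_eq_nsmul ℝ, smul_smul, inv_mul_cancel₀ hn'.ne', one_smul]
  rw [this]
  exact cone_smul (inv_nonneg.2 hn'.le) (subset_cone _ hnB)

lemma cone_quot [Fintype G] {A : AddSubmonoid V} {B : AddSubmonoid (fixed G)}
    (hG : Preserves G (A : Set V)) (h1 : ∀ x ∈ B, (x : V) ∈ A)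
    (h2 : ∀ x : fixed G, (x : V) ∈ A → ∃ n : ℕ, 0 < n ∧ n • x ∈ B) (x : fixed G) :
    x ∈ cone (B : Set (fixed G)) ↔ (x : V) ∈ cone (A : Set V) := by
  constructor
  · intro hx
    exact map_cone (fixed G).subtype (fun y hy => subset_cone _ (h1 y hy)) hx
  · intro hx
    rw [eq_avg x]
    exact cone_smul (inv_nonneg.2 card_pos'.le) (map_cone (avg G) (fun a ha => avg_mem hG h2 ha) hx)

lemma closure_quot [FiniteDimensional ℝ V] [Fintype G] {A : AddSubmonoid V}
    {B : AddSubmonoid (fixed G)}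
    (hG : Preserves G (A : Set V)) (h1 : ∀ x ∈ B, (x : V) ∈ A)
    (h2 : ∀ x : fixed G, (x : V) ∈ A → ∃ n : ℕ, 0 < n ∧ n • x ∈ B) (x : fixed G) :
    x ∈ closure (cone (B : Set (fixed G))) ↔ (x : V) ∈ closure (cone (A : Set V)) := by
  constructor
  · intro hx
    exact map_closure_cone (fixed G).subtype (fun y hy => subset_cone _ (h1 y hy)) hx
  · intro hx
    rw [eq_avg x]
    exact closure_smul' (inv_nonneg.2 card_pos'.le)
      (map_closure_cone (avg G) (fun a ha => avg_mem hG h2 ha) hx)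

/-- linear automorphisms which preserve a lattice in both directions -/
def stab {W : Type} [NormedAddCommGroup W] [NormedSpace ℝ W] (L : AddSubgroup W) :
    Subgroup (W ≃ₗ[ℝ] W) where
  carrier := {γ | ∀ x, γ x ∈ L ↔ x ∈ L}
  mul_mem' := fun {a b} ha hb x => by
    show a (b x) ∈ L ↔ x ∈ L
    rw [ha, hb]
  one_mem' := fun x => Iff.rfl
  inv_mem' := fun {a} ha x => by
    have h := ha ((a⁻¹ : W ≃ₗ[ℝ] W) x)
    have h' : a ((a⁻¹ : W ≃ₗ[ℝ] W) x) = x := a.apply_symm_apply x
    rw [h'] at h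
    exact h.symm

end quot

theorem prod_quot {ι : Type} [Fintype ι] {V : ι → Type} [∀ i, NormedAddCommGroup (V i)]
    [∀ i, NormedSpace ℝ (V i)] [∀ i, FiniteDimensional ℝ (V i)]
    (S : ∀ i, DivisorData (V i)) (hS : ∀ i, (S i).Conj) (R : DivisorData (∀ i, V i))
    (hR : IsProd S R) (G : Subgroup ((∀ i, V i) ≃ₗ[ℝ] (∀ i, V i))) (Q : DivisorData (fixed G))
    (hQ : IsQuot R G Q) : Q.Conj := by
  classical
  obtain ⟨hfin, hG, ⟨hL1, hL2⟩, ⟨hM1, hM2⟩, ⟨hF1, hF2⟩, C, -, hC, hres⟩ := hQ
  have hE := movEff_pi S R hR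
  have hRL : R.L = piLat fun i => (S i).L := by
    ext x; rw [hR.1, mem_piLat]
  have := Fintype.ofFinite G
  have hQE : movEff Q.M Q.F = coneIn (movEff R.M R.F) (fixed G) := by
    ext x
    show _ ∧ _ ↔ _ ∧ _
    rw [closure_quot (A := R.M) (fun g hg => R.presM g (hG hg)) hM1 hM2,
      cone_quot (A := R.F) (fun g hg => R.presF g (hG hg)) hF1 hF2]
  obtain ⟨s, hs, hcov⟩ := pi_weak (fun i => isCone (S i)) hS hR.2.2.2
  rw [← hRL, ← hE] at hs
  rw [← hE] at hcov
  -- the part of the group of the quotient which preserves the big lattice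
  have hdom : HasFundDomain (latIn R.L (fixed G)) (coneIn (movEff R.M R.F) (fixed G))
      (Q.Γ ⊓ stab (latIn R.L (fixed G))) := by
    refine quotient_domain R.lattice (isCone R) R.presL (presE R) hs hcov
      (fun g hg => R.presL g (hG hg)) (fun g hg => presE R g (hG hg))
      (fun g hg γ hγ => R.Γ.mul_mem (R.Γ.mul_mem (hG hg) hγ) (R.Γ.inv_mem (hG hg))) hC ?_ ?_ ?_
    · intro γ hγ x hx
      exact (hγ.2 x).2 hx
    · intro γ hγ x hx
      have := presE Q γ hγ.1 x (by rw [hQE]; exact hx)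
      rw [hQE] at this
      exact this
    · intro γ hγC hγ
      obtain ⟨γ', hγ', h⟩ := hres γ hγC
      refine ⟨γ', ⟨hγ', fun x => ?_⟩, h⟩
      rw [mem_latIn, mem_latIn, h]
      constructor
      · intro hx
        have h1 := R.presL γ⁻¹ (R.Γ.inv_mem hγ) _ hx
        have h2 : (γ⁻¹ : (∀ i, V i) ≃ₗ[ℝ] (∀ i, V i)) (γ (x : ∀ i, V i)) = x :=
          γ.symm_apply_apply _
        rw [h2] at h1
        exact h1
      · exact R.presL γ hγ _
  obtain ⟨s1, hs1, hcov1⟩ := weak_of_dom hdom
  choose! n hn hnL using fun (v : fixed G) (hv : v ∈ s1) => hL2 v (hs1 v hv).1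
  let s2 : Finset (fixed G) := s1.image fun v => n v • v
  have hs2 : ∀ v ∈ s2, v ∈ Q.L ∧ v ∈ movEff Q.M Q.F := by
    intro v hv
    obtain ⟨w, hw, rfl⟩ := Finset.mem_image.1 hv
    refine ⟨hnL w hw, ?_⟩
    rw [hQE]
    have h1 := (cone_fixed (isCone R) (fun g hg => presE R g (hG hg))).smul_mem (n w : ℝ)
      (Nat.cast_nonneg _) w (hs1 w hw).2
    rwa [Nat.cast_smul_eq_nsmul] at h1
  have hc12 : cone (s1 : Set (fixed G)) ⊆ cone (s2 : Set (fixed G)) := by
    refine cone_mono' fun v hv => ?_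
    have hv' : v ∈ s1 := hv
    have hn' : (0 : ℝ) < n v := by exact_mod_cast hn v hv'
    have : v = (n v : ℝ)⁻¹ • (n v • v) := by
      rw [← Nat.cast_smul_eq_nsmul ℝ, smul_smul, inv_mul_cancel₀ hn'.ne', one_smul]
    rw [this]
    exact cone_smul (inv_nonneg.2 hn'.le)
      (subset_cone _ (Finset.mem_coe.2 (Finset.mem_image.2 ⟨v, hv', rfl⟩)))
  have hcov2 : ∀ x ∈ movEff Q.M Q.F, ∃ γ ∈ Q.Γ, γ x ∈ cone (s2 : Set (fixed G)) := by
    intro x hx
    rw [hQE] at hx
    obtain ⟨γ, hγ, h⟩ := hcov1 x hx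
    exact ⟨γ, hγ.1, hc12 h⟩
  refine exact_of_weak Q.lattice (isCone Q) Q.presL (presE Q) (s₀ := s2) hs2
    (fun x hx => hcov2 x (interior_subset hx)) fun x hx => ?_
  obtain ⟨γ, hγ, h⟩ := hcov2 x hx
  refine ⟨s2.image (γ⁻¹ : fixed G ≃ₗ[ℝ] fixed G), ?_, ?_⟩
  · intro v hv
    obtain ⟨w, hw, rfl⟩ := Finset.mem_image.1 hv
    exact ⟨Q.presL _ (Q.Γ.inv_mem hγ) _ (hs2 w hw).1, presE Q _ (Q.Γ.inv_mem hγ) _ (hs2 w hw).2⟩
  · have h2 : ((γ⁻¹ : fixed G ≃ₗ[ℝ] fixed G) : fixed G →ₗ[ℝ] fixed G) (γ x) = x :=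
      γ.symm_apply_apply _
    rw [← h2]
    refine map_cone ((γ⁻¹ : fixed G ≃ₗ[ℝ] fixed G) : fixed G →ₗ[ℝ] fixed G) (fun y hy => ?_) h
    exact subset_cone _ (Finset.mem_coe.2 (Finset.mem_image.2 ⟨y, hy, rfl⟩))

end Pool.Agent.W955.Mov
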